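import Mathlib

/-!
Symbol calculus in the thin shell `| |x|^2 - 1 | ≤ 1/M` of `R^4`, and the bounds of the vector field
`Theta` of the counterexample for MP_a29272 (Q1), for an arbitrary family `P` of homogeneous functions
whose derivatives of order `≤ 3` cost one factor `M` each.
-/

open Set Filter Topology
open scoped ContDiff

noncomputable section

namespace MP_a29272_th

abbrev E : Type := EuclideanSpace ℝ (Fin 4)

/-- the shell -/
def Shell (M : ℕ) : Set E := {x : E | |‖x‖ ^ 2 - 1| ≤ 1 / (M : ℝ)}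

theorem mem_big {M : ℕ} (hM : 1 ≤ M) {x : E} (hx : x ∈ Shell M) : x ∈ Metric.closedBall (0 : E) 2 := by
  have h1 : (1 : ℝ) / M ≤ 1 := by
    rw [div_le_one (by positivity)]; exact_mod_cast hM
  have h2 := (abs_le.mp (le_trans hx h1)).2
  rw [mem_closedBall_zero_iff]
  nlinarith [norm_nonneg x]

variable {G : Type*} [NormedAddCommGroup G] [NormedSpace ℝ G]
variable {G' : Type*} [NormedAddCommGroup G'] [NormedSpace ℝ G']

/-- symbols of order `k`, with control of `n` derivatives -/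
def Sy (n k : ℕ) (F : ℕ → E → G) : Prop :=
  ∃ C : ℝ, 0 ≤ C ∧ ∀ M : ℕ, 1 ≤ M → ContDiff ℝ ∞ (F M) ∧
    ∀ j : ℕ, j ≤ n → ∀ x ∈ Shell M, ‖iteratedFDeriv ℝ j (F M) x‖ ≤ C * (M : ℝ) ^ (k + j)

theorem Sy.contDiff {n k : ℕ} {F : ℕ → E → G} (h : Sy n k F) {M : ℕ} (hM : 1 ≤ M) :
    ContDiff ℝ ∞ (F M) := by
  obtain ⟨C, -, h⟩ := h
  exact (h M hM).1

theorem nat_le_inf (j : ℕ) : ((j : ℕ) : WithTop ℕ∞) ≤ (∞ : WithTop ℕ∞) := by
  exact_mod_cast le_top

theorem Sy.add {n k : ℕ} {F H : ℕ → E → G} (hF : Sy n k F) (hH : Sy n k H) :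
    Sy n k (fun M x => F M x + H M x) := by
  obtain ⟨C, hC, hF⟩ := hF
  obtain ⟨D, hD, hH⟩ := hH
  refine ⟨C + D, by positivity, fun M hM => ⟨(hF M hM).1.add (hH M hM).1, fun j hj x hx => ?_⟩⟩
  have e : iteratedFDeriv ℝ j (fun x => F M x + H M x) x
      = iteratedFDeriv ℝ j (F M) x + iteratedFDeriv ℝ j (H M) x :=
    iteratedFDeriv_add_apply (((hF M hM).1.of_le (nat_le_inf j)).contDiffAt)
      (((hH M hM).1.of_le (nat_le_inf j)).contDiffAt)
  rw [e, add_mul]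
  exact (norm_add_le _ _).trans (add_le_add ((hF M hM).2 j hj x hx) ((hH M hM).2 j hj x hx))

theorem Sy.const_smul {n k : ℕ} {F : ℕ → E → G} (hF : Sy n k F) (c : ℝ) :
    Sy n k (fun M x => c • F M x) := by
  obtain ⟨C, hC, hF⟩ := hF
  refine ⟨|c| * C, by positivity, fun M hM => ⟨(hF M hM).1.const_smul c, fun j hj x hx => ?_⟩⟩
  have e : iteratedFDeriv ℝ j (fun x => c • F M x) x = c • iteratedFDeriv ℝ j (F M) x :=
    iteratedFDeriv_const_smul_apply' (((hF M hM).1.of_le (nat_le_inf j)).contDiffAt)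
  rw [e, norm_smul, Real.norm_eq_abs, mul_assoc]
  exact mul_le_mul_of_nonneg_left ((hF M hM).2 j hj x hx) (abs_nonneg c)

theorem Sy.div_M {n k : ℕ} {F : ℕ → E → G} (hF : Sy n (k + 1) F) :
    Sy n k (fun M x => (1 / (M : ℝ)) • F M x) := by
  obtain ⟨C, hC, hF⟩ := hF
  refine ⟨C, hC, fun M hM => ⟨(hF M hM).1.const_smul _, fun j hj x hx => ?_⟩⟩
  have e : iteratedFDeriv ℝ j (fun x => (1 / (M : ℝ)) • F M x) x
      = (1 / (M : ℝ)) • iteratedFDeriv ℝ j (F M) x :=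
    iteratedFDeriv_const_smul_apply' (((hF M hM).1.of_le (nat_le_inf j)).contDiffAt)
  have hM0 : (0 : ℝ) < M := by exact_mod_cast hM
  rw [e, norm_smul, Real.norm_eq_abs, abs_of_pos (by positivity)]
  calc (1 / (M : ℝ)) * ‖iteratedFDeriv ℝ j (F M) x‖
      ≤ (1 / (M : ℝ)) * (C * (M : ℝ) ^ (k + 1 + j)) :=
        mul_le_mul_of_nonneg_left ((hF M hM).2 j hj x hx) (by positivity)
    _ = C * (M : ℝ) ^ (k + j) := by
        rw [show k + 1 + j = (k + j) + 1 by ring, pow_succ]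
        field_simp

theorem Sy.mul_M {n k : ℕ} {F : ℕ → E → G} (hF : Sy n k F) :
    Sy n (k + 1) (fun M x => (M : ℝ) • F M x) := by
  obtain ⟨C, hC, hF⟩ := hF
  refine ⟨C, hC, fun M hM => ⟨(hF M hM).1.const_smul _, fun j hj x hx => ?_⟩⟩
  have e : iteratedFDeriv ℝ j (fun x => (M : ℝ) • F M x) x
      = (M : ℝ) • iteratedFDeriv ℝ j (F M) x :=
    iteratedFDeriv_const_smul_apply' (((hF M hM).1.of_le (nat_le_inf j)).contDiffAt)
  have hM0 : (0 : ℝ) < M := by exact_mod_cast hM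
  rw [e, norm_smul, Real.norm_eq_abs, abs_of_pos (by positivity)]
  calc (M : ℝ) * ‖iteratedFDeriv ℝ j (F M) x‖
      ≤ (M : ℝ) * (C * (M : ℝ) ^ (k + j)) :=
        mul_le_mul_of_nonneg_left ((hF M hM).2 j hj x hx) (by positivity)
    _ = C * (M : ℝ) ^ (k + 1 + j) := by
        rw [show k + 1 + j = (k + j) + 1 by ring, pow_succ]
        ring

theorem Sy.smul {n k l : ℕ} {f : ℕ → E → ℝ} {F : ℕ → E → G} (hf : Sy n k f) (hF : Sy n l F) :
    Sy n (k + l) (fun M x => f M x • F M x) := by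
  obtain ⟨C, hC, hf⟩ := hf
  obtain ⟨D, hD, hF⟩ := hF
  refine ⟨2 ^ n * (C * D), by positivity, fun M hM =>
    ⟨(hf M hM).1.smul (hF M hM).1, fun j hj x hx => ?_⟩⟩
  have hM0 : (1 : ℝ) ≤ M := by exact_mod_cast hM
  have h := norm_iteratedFDeriv_smul_le (hf M hM).1 (hF M hM).1 x (nat_le_inf j)
  refine h.trans ?_
  calc ∑ i ∈ Finset.range (j + 1), (j.choose i : ℝ) * ‖iteratedFDeriv ℝ i (f M) x‖ *
        ‖iteratedFDeriv ℝ (j - i) (F M) x‖
      ≤ ∑ i ∈ Finset.range (j + 1), (j.choose i : ℝ) * ((C * D) * (M : ℝ) ^ (k + l + j)) := by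
        refine Finset.sum_le_sum fun i hi => ?_
        have hi' : i ≤ j := Nat.lt_succ_iff.mp (Finset.mem_range.mp hi)
        rw [mul_assoc]
        refine mul_le_mul_of_nonneg_left ?_ (by positivity)
        calc ‖iteratedFDeriv ℝ i (f M) x‖ * ‖iteratedFDeriv ℝ (j - i) (F M) x‖
            ≤ (C * (M : ℝ) ^ (k + i)) * (D * (M : ℝ) ^ (l + (j - i))) :=
              mul_le_mul ((hf M hM).2 i (hi'.trans hj) x hx)
                ((hF M hM).2 (j - i) ((Nat.sub_le j i).trans hj) x hx) (norm_nonneg _)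
                (by positivity)
          _ = (C * D) * (M : ℝ) ^ (k + l + j) := by
              rw [show k + l + j = (k + i) + (l + (j - i)) by omega, pow_add]
              ring
    _ = 2 ^ j * (C * D) * (M : ℝ) ^ (k + l + j) := by
        rw [← Finset.sum_mul]
        have : ∑ i ∈ Finset.range (j + 1), (j.choose i : ℝ) = 2 ^ j := by
          exact_mod_cast Nat.sum_range_choose j
        rw [this]; ring
    _ ≤ 2 ^ n * (C * D) * (M : ℝ) ^ (k + l + j) := by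
        refine mul_le_mul_of_nonneg_right ?_ (by positivity)
        refine mul_le_mul_of_nonneg_right ?_ (by positivity)
        exact pow_le_pow_right₀ (by norm_num) hj

theorem Sy.clm_comp {n k : ℕ} {F : ℕ → E → G} (hF : Sy n k F) (L : G →L[ℝ] G') :
    Sy n k (fun M x => L (F M x)) := by
  obtain ⟨C, hC, hF⟩ := hF
  refine ⟨‖L‖ * C, by positivity, fun M hM =>
    ⟨L.contDiff.comp (hF M hM).1, fun j hj x hx => ?_⟩⟩
  have h : ‖iteratedFDeriv ℝ j (L ∘ (F M)) x‖ ≤ ‖L‖ * ‖iteratedFDeriv ℝ j (F M) x‖ :=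
    L.norm_iteratedFDeriv_comp_left ((hF M hM).1.contDiffAt) (nat_le_inf j)
  refine h.trans ?_
  rw [mul_assoc]
  exact mul_le_mul_of_nonneg_left ((hF M hM).2 j hj x hx) (norm_nonneg L)

theorem Sy.fderiv {n k : ℕ} {F : ℕ → E → G} (hF : Sy (n + 1) k F) :
    Sy n (k + 1) (fun M x => _root_.fderiv ℝ (F M) x) := by
  obtain ⟨C, hC, hF⟩ := hF
  refine ⟨C, hC, fun M hM => ⟨(hF M hM).1.fderiv_right (m := ∞) (by simp), fun j hj x hx => ?_⟩⟩
  have h : ‖iteratedFDeriv ℝ j (_root_.fderiv ℝ (F M)) x‖ = ‖iteratedFDeriv ℝ (j + 1) (F M) x‖ :=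
    norm_iteratedFDeriv_fderiv
  change ‖iteratedFDeriv ℝ j (_root_.fderiv ℝ (F M)) x‖ ≤ _
  rw [h, show k + 1 + j = k + (j + 1) by ring]
  exact (hF M hM).2 (j + 1) (by omega) x hx

theorem Sy.mono {n n' k : ℕ} (hn : n' ≤ n) {F : ℕ → E → G} (hF : Sy n k F) : Sy n' k F := by
  obtain ⟨C, hC, hF⟩ := hF
  exact ⟨C, hC, fun M hM => ⟨(hF M hM).1, fun j hj x hx => (hF M hM).2 j (hj.trans hn) x hx⟩⟩

/-- derivatives of a fixed smooth function are bounded on the shells -/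
theorem fixed_bound {F : E → G} (hF : ContDiff ℝ ∞ F) (n : ℕ) :
    ∃ C : ℝ, 0 ≤ C ∧ ∀ M : ℕ, 1 ≤ M → ∀ j : ℕ, j ≤ n → ∀ x ∈ Shell M,
      ‖iteratedFDeriv ℝ j F x‖ ≤ C := by
  have hb : ∀ j : ℕ, ∃ C : ℝ, ∀ x ∈ Metric.closedBall (0 : E) 2, ‖iteratedFDeriv ℝ j F x‖ ≤ C := by
    intro j
    have hc : Continuous fun x => ‖iteratedFDeriv ℝ j F x‖ :=
      (hF.continuous_iteratedFDeriv (nat_le_inf j)).norm
    obtain ⟨C, hC⟩ := (isCompact_closedBall (0 : E) 2).bddAbove_image hc.continuousOn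
    exact ⟨C, fun x hx => hC ⟨x, hx, rfl⟩⟩
  choose C hC using hb
  refine ⟨∑ j ∈ Finset.range (n + 1), |C j|, by positivity, fun M hM j hj x hx => ?_⟩
  refine (hC j x (mem_big hM hx)).trans ((le_abs_self _).trans ?_)
  exact Finset.single_le_sum (f := fun j => |C j|) (fun i _ => abs_nonneg _)
    (Finset.mem_range.mpr (by omega))

/-- a fixed smooth function is a symbol of order 0 -/
theorem Sy.of_const {F : E → G} (hF : ContDiff ℝ ∞ F) (n : ℕ) : Sy n 0 (fun _ x => F x) := by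
  obtain ⟨C, hC, h⟩ := fixed_bound hF n
  refine ⟨C, hC, fun M hM => ⟨hF, fun j hj x hx => ?_⟩⟩
  have hM0 : (1 : ℝ) ≤ M := by exact_mod_cast hM
  calc ‖iteratedFDeriv ℝ j F x‖ ≤ C * 1 := by rw [mul_one]; exact h M hM j hj x hx
    _ ≤ _ := mul_le_mul_of_nonneg_left (one_le_pow₀ hM0) hC

/-- composition of a fixed smooth function of one variable with `M (|x|^2 - 1)` -/
theorem Sy.cutoff {psi : ℝ → ℝ} (hpsi : ContDiff ℝ ∞ psi) (n : ℕ) :
    Sy n 0 (fun M x => psi ((M : ℝ) * (‖x‖ ^ 2 - 1))) := by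
  have hg : ContDiff ℝ ∞ (fun x : E => ‖x‖ ^ 2 - 1) := (contDiff_norm_sq ℝ).sub contDiff_const
  obtain ⟨D, hD, h1⟩ := fixed_bound hg n
  have hb : ∀ j : ℕ, ∃ C : ℝ, ∀ t ∈ Icc (-1 : ℝ) 1, ‖iteratedFDeriv ℝ j psi t‖ ≤ C := by
    intro j
    have hc : Continuous fun x => ‖iteratedFDeriv ℝ j psi x‖ :=
      (hpsi.continuous_iteratedFDeriv (nat_le_inf j)).norm
    obtain ⟨C, hC⟩ := (isCompact_Icc (a := (-1 : ℝ)) (b := 1)).bddAbove_image hc.continuousOn
    exact ⟨C, fun x hx => hC ⟨x, hx, rfl⟩⟩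
  choose C hC using hb
  set K : ℝ := ∑ j ∈ Finset.range (n + 1), |C j| with hK
  have hK0 : 0 ≤ K := by rw [hK]; positivity
  set D' : ℝ := D + 1 with hD'
  have hD1 : 1 ≤ D' := by rw [hD']; linarith
  refine ⟨(n.factorial : ℝ) * K * D' ^ n, by positivity, fun M hM =>
    ⟨hpsi.comp (hg.const_smul (M : ℝ)), fun j hj x hx => ?_⟩⟩
  have hM0 : (1 : ℝ) ≤ M := by exact_mod_cast hM
  have hx' : (M : ℝ) * (‖x‖ ^ 2 - 1) ∈ Icc (-1 : ℝ) 1 := by
    have h2 : |‖x‖ ^ 2 - 1| ≤ 1 / (M : ℝ) := hx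
    have h3 : |(M : ℝ) * (‖x‖ ^ 2 - 1)| ≤ 1 := by
      rw [abs_mul, abs_of_pos (by linarith)]
      calc (M : ℝ) * |‖x‖ ^ 2 - 1| ≤ M * (1 / (M : ℝ)) :=
            mul_le_mul_of_nonneg_left h2 (by linarith)
        _ = 1 := by field_simp
    exact abs_le.mp h3
  -- the inner function
  have hin : ∀ i, 1 ≤ i → i ≤ j →
      ‖iteratedFDeriv ℝ i (fun x : E => (M : ℝ) • (‖x‖ ^ 2 - 1)) x‖ ≤ (D' * M) ^ i := by
    intro i hi1 hi
    have e : iteratedFDeriv ℝ i (fun x : E => (M : ℝ) • (‖x‖ ^ 2 - 1)) x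
        = (M : ℝ) • iteratedFDeriv ℝ i (fun x : E => ‖x‖ ^ 2 - 1) x :=
      iteratedFDeriv_const_smul_apply' ((hg.of_le (nat_le_inf i)).contDiffAt)
    rw [e, norm_smul, Real.norm_eq_abs, abs_of_pos (by linarith)]
    have h4 : (1 : ℝ) ≤ D' * M := by nlinarith
    calc (M : ℝ) * ‖iteratedFDeriv ℝ i (fun x : E => ‖x‖ ^ 2 - 1) x‖
        ≤ M * D := mul_le_mul_of_nonneg_left (h1 M hM i (hi.trans hj) x hx) (by linarith)
      _ ≤ D' * M := by rw [hD']; nlinarith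
      _ = (D' * M) ^ 1 := (pow_one _).symm
      _ ≤ (D' * M) ^ i := pow_le_pow_right₀ h4 hi1
  have hout : ∀ i, i ≤ j → ‖iteratedFDeriv ℝ i psi ((M : ℝ) • (‖x‖ ^ 2 - 1))‖ ≤ K := by
    intro i hi
    refine (hC i _ hx').trans ((le_abs_self _).trans ?_)
    rw [hK]
    exact Finset.single_le_sum (f := fun j => |C j|) (fun i _ => abs_nonneg _)
      (Finset.mem_range.mpr (by omega))
  have h5 : ‖iteratedFDeriv ℝ j (psi ∘ fun x : E => (M : ℝ) • (‖x‖ ^ 2 - 1)) x‖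
      ≤ (j.factorial : ℝ) * K * (D' * M) ^ j :=
    norm_iteratedFDeriv_comp_le (N := ∞) hpsi (hg.const_smul (M : ℝ)) (nat_le_inf j) x hout hin
  refine h5.trans ?_
  rw [mul_pow, zero_add, ← mul_assoc]
  refine mul_le_mul_of_nonneg_right ?_ (by positivity)
  have h6 : (j.factorial : ℝ) ≤ n.factorial := by exact_mod_cast Nat.factorial_le hj
  have h7 : D' ^ j ≤ D' ^ n := pow_le_pow_right₀ hD1 hj
  have h8 : (j.factorial : ℝ) * K ≤ n.factorial * K := mul_le_mul_of_nonneg_right h6 hK0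
  exact mul_le_mul h8 h7 (by positivity) (by positivity)

/-- multiplication by `i` on `C^2 = R^4`, as a linear map -/
def Jlin : E →ₗ[ℝ] E where
  toFun x := !₂[-x 1, x 0, -x 3, x 2]
  map_add' x y := by
    ext i
    fin_cases i <;> simp <;> ring
  map_smul' c x := by
    ext i
    fin_cases i <;> simp

/-- multiplication by `i` on `C^2 = R^4` -/
def J : E →L[ℝ] E := LinearMap.toContinuousLinearMap Jlin

theorem J_apply (x : E) : J x = !₂[-x 1, x 0, -x 3, x 2] := rfl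

@[simp] theorem J_zero (x : E) : J x 0 = -x 1 := rfl
@[simp] theorem J_one (x : E) : J x 1 = x 0 := rfl
@[simp] theorem J_two (x : E) : J x 2 = -x 3 := rfl
@[simp] theorem J_three (x : E) : J x 3 = x 2 := rfl

theorem inner_J (x : E) : inner ℝ x (J x) = 0 := by
  simp only [PiLp.inner_apply, Fin.sum_univ_four, J_zero, J_one, J_two, J_three]
  simp
  ring

/-- the cut-off -/
def chiB : ContDiffBump (0 : ℝ) := ⟨1 / 8, 1 / 4, by norm_num, by norm_num⟩

def chi (t : ℝ) : ℝ := chiB t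

theorem chi_contDiff : ContDiff ℝ ∞ chi := chiB.contDiff

theorem chi_eq_one {t : ℝ} (ht : |t| ≤ 1 / 8) : chi t = 1 :=
  chiB.one_of_mem_closedBall (by simpa [chiB] using ht)

theorem chi_zero : chi 0 = 1 := chi_eq_one (by norm_num)

theorem chi_eq_zero {t : ℝ} (ht : 1 / 4 ≤ |t|) : chi t = 0 :=
  chiB.zero_of_le_dist (by simpa [chiB] using ht)

/-- the vector field, for an arbitrary family `P` -/
def Th (P : ℕ → E → ℝ) (M : ℕ) (x : E) : E :=
  (-(3 / (M : ℝ)) * chi ((M : ℝ) * (‖x‖ ^ 2 - 1)) * P M x) •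
    (‖x‖ ^ 2 • J x + (‖x‖ ^ 2 / (2 * (M : ℝ))) • gradient (P M) x - P M x • x)

/-- the inverse of the Riesz map, as a real continuous linear map -/
def dualInv : StrongDual ℝ E →L[ℝ] E :=
  LinearMap.mkContinuous
    { toFun := fun f => (InnerProductSpace.toDual ℝ E).symm f
      map_add' := fun f g => by simp
      map_smul' := fun c f => by simp } 1 (fun f => by simp)

theorem dualInv_apply (f : StrongDual ℝ E) :
    dualInv f = (InnerProductSpace.toDual ℝ E).symm f := rfl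

/-- the field is orthogonal to the position vector -/
theorem inner_Th {P : ℕ → E → ℝ} {M : ℕ} (hM : 1 ≤ M)
    (hE : ∀ x, inner ℝ (gradient (P M) x) x = 2 * (M : ℝ) * P M x) (x : E) :
    inner ℝ x (Th P M x) = 0 := by
  have hM0 : (M : ℝ) ≠ 0 := by positivity
  have h1 : inner ℝ x (gradient (P M) x) = 2 * (M : ℝ) * P M x := by
    rw [real_inner_comm]; exact hE x
  rw [Th, inner_smul_right, inner_sub_right, inner_add_right, inner_smul_right, inner_smul_right,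
    inner_smul_right, inner_J, h1, real_inner_self_eq_norm_sq]
  field_simp
  ring

/-- the field vanishes outside a thin shell -/
theorem Th_eq_zero {P : ℕ → E → ℝ} {M : ℕ} (hM : 1 ≤ M) {x : E}
    (hx : 1 / (4 * (M : ℝ)) ≤ |‖x‖ ^ 2 - 1|) : Th P M x = 0 := by
  have hM0 : (0 : ℝ) < M := by exact_mod_cast hM
  have h : chi ((M : ℝ) * (‖x‖ ^ 2 - 1)) = 0 := by
    apply chi_eq_zero
    rw [abs_mul, abs_of_pos hM0]
    calc (1 / 4 : ℝ) = M * (1 / (4 * (M : ℝ))) := by field_simp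
      _ ≤ _ := mul_le_mul_of_nonneg_left hx hM0.le
  rw [Th, h]
  simp

/-- `M Th` is a symbol of order zero, with two derivatives controlled -/
theorem Th_symbol {P : ℕ → E → ℝ} (hP : Sy 3 0 P) : Sy 2 0 (fun M x => (M : ℝ) • Th P M x) := by
  have hP2 : Sy 2 0 P := hP.mono (by norm_num)
  have hchi : Sy 2 0 (fun M x => chi ((M : ℝ) * (‖x‖ ^ 2 - 1))) := Sy.cutoff chi_contDiff 2
  have hn : Sy 2 0 (fun (_ : ℕ) (x : E) => ‖x‖ ^ 2) := Sy.of_const (contDiff_norm_sq ℝ) 2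
  have hJ : Sy 2 0 (fun (_ : ℕ) (x : E) => J x) := Sy.of_const J.contDiff 2
  have hid : Sy 2 0 (fun (_ : ℕ) (x : E) => x) := Sy.of_const contDiff_id 2
  have hg : Sy 2 0 (fun M x => (1 / (M : ℝ)) • gradient (P M) x) := by
    have h1 : Sy 2 1 (fun M x => _root_.fderiv ℝ (P M) x) := by simpa using hP.fderiv
    have h2 : Sy 2 1 (fun M x => gradient (P M) x) := by
      exact h1.clm_comp dualInv
    exact h2.div_M
  have h3 := ((hn.smul hJ).add ((hn.smul hg).const_smul (1 / 2))).add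
    ((hP2.smul hid).const_smul (-1))
  have h4 := ((hchi.smul hP2).const_smul (-3)).smul h3
  simp only [add_zero] at h4
  obtain ⟨C, hC, h4⟩ := h4
  refine ⟨C, hC, fun M hM => ?_⟩
  have hM0 : (M : ℝ) ≠ 0 := by positivity
  have e : (fun x => (M : ℝ) • Th P M x) = (fun x : E => ((-3 : ℝ) •
      chi ((M : ℝ) * (‖x‖ ^ 2 - 1)) • P M x) • (‖x‖ ^ 2 • J x + (1 / 2 : ℝ) •
        ‖x‖ ^ 2 • (1 / (M : ℝ)) • gradient (P M) x + (-1 : ℝ) • P M x • x)) := by
    funext x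
    rw [Th, smul_smul]
    have e1 : (M : ℝ) * (-(3 / (M : ℝ)) * chi ((M : ℝ) * (‖x‖ ^ 2 - 1)) * P M x)
        = (-3 : ℝ) • chi ((M : ℝ) * (‖x‖ ^ 2 - 1)) • P M x := by
      simp only [smul_eq_mul]; field_simp
    have e2 : (‖x‖ ^ 2 / (2 * (M : ℝ))) • gradient (P M) x
        = (1 / 2 : ℝ) • ‖x‖ ^ 2 • (1 / (M : ℝ)) • gradient (P M) x := by
      rw [smul_smul, smul_smul]
      congr 1
      field_simp
    rw [e1, e2, neg_one_smul, ← sub_eq_add_neg]
  have h5 := h4 M hM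
  beta_reduce at h5
  rw [← e] at h5
  exact h5

theorem Th_contDiff {P : ℕ → E → ℝ} (hP : Sy 3 0 P) {M : ℕ} (hM : 1 ≤ M) :
    ContDiff ℝ ∞ (Th P M) := by
  have h := ((Th_symbol hP).contDiff hM).const_smul (1 / (M : ℝ))
  have hM0 : (M : ℝ) ≠ 0 := by positivity
  have e : (fun x => (1 / (M : ℝ)) • (M : ℝ) • Th P M x) = Th P M := by
    funext x
    rw [smul_smul, one_div, inv_mul_cancel₀ hM0, one_smul]
  rw [← e]
  exact h

/-- all derivatives vanish outside the shell -/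
theorem Th_iterated_zero {P : ℕ → E → ℝ} {M : ℕ} (hM : 1 ≤ M) {x : E} (hx : x ∉ Shell M) (j : ℕ) :
    iteratedFDeriv ℝ j (Th P M) x = 0 := by
  have hM0 : (0 : ℝ) < M := by exact_mod_cast hM
  have hx' : 1 / (M : ℝ) < |‖x‖ ^ 2 - 1| := not_le.mp hx
  have hlt : 1 / (4 * (M : ℝ)) < |‖x‖ ^ 2 - 1| := by
    refine lt_of_le_of_lt ?_ hx'
    gcongr
    linarith
  have hev : Th P M =ᶠ[𝓝 x] fun _ => 0 := by
    have hc : Continuous fun y : E => |‖y‖ ^ 2 - 1| := by fun_prop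
    filter_upwards [hc.continuousAt.eventually (lt_mem_nhds hlt)] with y hy
    exact Th_eq_zero hM hy.le
  rw [hev.iteratedFDeriv ℝ j |>.eq_of_nhds]
  simp [iteratedFDeriv_fun_zero]

/-- **(T)** the bounds of the field -/
theorem Th_bounds {P : ℕ → E → ℝ} (hP : Sy 3 0 P) :
    ∃ A : ℝ, 0 < A ∧ ∀ M : ℕ, 1 ≤ M → ∀ x : E, ‖Th P M x‖ ≤ A / M ∧
      ‖_root_.fderiv ℝ (Th P M) x‖ ≤ A ∧
      ‖_root_.fderiv ℝ (_root_.fderiv ℝ (Th P M)) x‖ ≤ A * M := by
  obtain ⟨C, hC, h⟩ := Th_symbol hP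
  have key : ∀ M : ℕ, 1 ≤ M → ∀ j ≤ 2, ∀ x : E,
      ‖iteratedFDeriv ℝ j (Th P M) x‖ ≤ C * (M : ℝ) ^ j / M := by
    intro M hM j hj x
    have hM0 : (0 : ℝ) < M := by exact_mod_cast hM
    by_cases hx : x ∈ Shell M
    · have h1 := (h M hM).2 j hj x hx
      have e : iteratedFDeriv ℝ j (fun x => (M : ℝ) • Th P M x) x
          = (M : ℝ) • iteratedFDeriv ℝ j (Th P M) x :=
        iteratedFDeriv_const_smul_apply'
          (((Th_contDiff hP hM).of_le (nat_le_inf j)).contDiffAt)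
      rw [e, norm_smul, Real.norm_eq_abs, abs_of_pos hM0, zero_add] at h1
      rw [le_div_iff₀ hM0, mul_comm]
      exact h1
    · rw [Th_iterated_zero hM hx, norm_zero]
      positivity
  refine ⟨C + 1, by linarith, fun M hM x => ?_⟩
  have hM0 : (0 : ℝ) < M := by exact_mod_cast hM
  refine ⟨?_, ?_, ?_⟩
  · have h1 := key M hM 0 (by norm_num) x
    rw [norm_iteratedFDeriv_zero, pow_zero, mul_one] at h1
    exact h1.trans (by gcongr; linarith)
  · have h1 := key M hM 1 (by norm_num) x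
    rw [norm_iteratedFDeriv_one, pow_one, mul_div_assoc, div_self hM0.ne', mul_one] at h1
    linarith
  · have h1 := key M hM 2 (by norm_num) x
    have e : ‖_root_.fderiv ℝ (_root_.fderiv ℝ (Th P M)) x‖ = ‖iteratedFDeriv ℝ 2 (Th P M) x‖ := by
      rw [← norm_iteratedFDeriv_one, norm_iteratedFDeriv_fderiv]
    rw [e]
    refine h1.trans ?_
    rw [pow_two, ← mul_assoc, mul_div_assoc, div_self hM0.ne', mul_one]
    gcongr
    linarith

end MP_a29272_th
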