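import Pool.Agent.Lib_MP_a29272_s.PBound
import Pool.Agent.Lib_MP_a29272_th.Theta

/-!
The vector field `Theta` of the counterexample for MP_a29272 (Q1), with the bounds (T).
-/

open Set Filter Topology
open scoped ContDiff

noncomputable section

namespace MP_a29272_th

/-- the family `P` -/
def PF (M : ℕ) (x : E) : ℝ := Pool.Agent.LibMPa29272s.P M x

theorem PF_symbol : Sy 3 0 PF := by
  refine ⟨Real.exp 9 * 27, by positivity, fun M hM =>
    ⟨Pool.Agent.LibMPa29272s.P_contDiff M, fun j hj x hx => ?_⟩⟩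
  have hx' : ‖x‖ ^ 2 ≤ 1 + 1 / (M : ℝ) := by
    have h1 : |‖x‖ ^ 2 - 1| ≤ 1 / (M : ℝ) := hx
    linarith [(abs_le.mp h1).2]
  refine (Pool.Agent.LibMPa29272s.P_bound (by omega) hj x hx').trans ?_
  rw [zero_add, mul_pow, ← mul_assoc]
  have h3 : (3 : ℝ) ^ j ≤ 27 := by
    calc (3 : ℝ) ^ j ≤ 3 ^ 3 := pow_le_pow_right₀ (by norm_num) hj
      _ = 27 := by norm_num
  gcongr

theorem PF_euler (M : ℕ) (x : E) : inner ℝ (gradient (PF M) x) x = 2 * (M : ℝ) * PF M x := by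
  have h : inner ℝ (gradient (PF M) x) x = fderiv ℝ (PF M) x x := by
    rw [gradient, InnerProductSpace.toDual_symm_apply]
  rw [h]
  exact Pool.Agent.LibMPa29272s.P_euler M x

/-- the vector field -/
def Theta (M : ℕ) (x : E) : E := Th PF M x

theorem Theta_contDiff {M : ℕ} (hM : 1 ≤ M) : ContDiff ℝ ∞ (Theta M) :=
  Th_contDiff PF_symbol hM

theorem inner_Theta {M : ℕ} (hM : 1 ≤ M) (x : E) : inner ℝ x (Theta M x) = 0 :=
  inner_Th hM (PF_euler M) x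

theorem Theta_eq_zero {M : ℕ} (hM : 1 ≤ M) {x : E}
    (hx : 1 / (4 * (M : ℝ)) ≤ |‖x‖ ^ 2 - 1|) : Theta M x = 0 :=
  Th_eq_zero hM hx

/-- **(T)** -/
theorem Theta_bounds :
    ∃ A : ℝ, 0 < A ∧ ∀ M : ℕ, 1 ≤ M → ∀ x : E, ‖Theta M x‖ ≤ A / M ∧
      ‖fderiv ℝ (Theta M) x‖ ≤ A ∧
      ‖fderiv ℝ (fderiv ℝ (Theta M)) x‖ ≤ A * M :=
  Th_bounds PF_symbol

end MP_a29272_th
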