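import Mathlib

/-!
# The polynomial `P` of the shift field: definition by recursion
-/

namespace MP_a29272_th

/-- `Q a b n = ((s + i t)^(2n) + (s - i t)^(2n)) / 2` for `a = s²`, `b = t²` -/
def Q {R : Type*} [CommRing R] (a b : R) : ℕ → R
  | 0 => 1
  | 1 => a - b
  | n + 2 => 2 * (a - b) * Q a b (n + 1) - (a + b) ^ 2 * Q a b n

/-- the polynomial `P(x) = Re (|z₁| + i |z₂|)^(2M)`, `z₁ = x₀ + i x₁`, `z₂ = x₂ + i x₃` -/
def PP (M : ℕ) (x : EuclideanSpace ℝ (Fin 4)) : ℝ :=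
  Q (x 0 ^ 2 + x 1 ^ 2) (x 2 ^ 2 + x 3 ^ 2) M

end MP_a29272_th
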